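import Pool.Agent.H721.C4.Cmp
import Pool.Agent.H154.C4.Grp
import Pool.Graph.R_seed8.W867.Cov3.Sym2

/-!
# Bodies which are close to a body with an affine symmetry

If all convex bodies in `ℝ^d` with a nontrivial orientation preserving affine symmetry are covered by
`N` translates of their interiors, then there is `ε > 0` such that this holds for all convex bodies
which are `ε`-close, in the affine sense, to such a body.
-/

set_option autoImplicit false

open Set Topology Module Filter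

namespace Pool.Agent.H283.NS

open Pool.Agent.H768.C4 (Ed Conv Cov)
open Pool.Agent.H154.C4 (Al Sy aff aff_apply aff_inj app_one hat hat_apply hat_one_apply hat_inj
  hat_mul hat_id hat_Sy pow_Sy lim_Sy aff_eq)

variable {d : ℕ}

/-- in a normed algebra the powers of an element different from `1` do not stay close to `1` -/
theorem doubling {A : Type*} [NormedRing A] [NormedAlgebra ℝ A] (a : A) (ha : a ≠ 1) :
    ∃ k : ℕ, 1 / 2 < ‖a ^ k - 1‖ := by
  by_contra hno
  push Not at hno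
  have h0 : 0 < ‖a - 1‖ := norm_pos_iff.2 (sub_ne_zero.2 ha)
  have h1 : ∀ j : ℕ, (3 / 2 : ℝ) ^ j * ‖a - 1‖ ≤ ‖a ^ (2 ^ j) - 1‖ := by
    intro j
    induction j with
    | zero => simp
    | succ j ih =>
      have h2 := hno (2 ^ j)
      set b := a ^ (2 ^ j) with hb
      have h3 : a ^ (2 ^ (j + 1)) = b * b := by
        rw [hb, ← pow_add]
        congr 1
        ring
      have h5 : 2 * ‖b - 1‖ - ‖b - 1‖ * ‖b - 1‖ ≤ ‖b * b - 1‖ := by
        have h6 : (2 : ℝ) • (b - 1) = (b * b - 1) - (b - 1) * (b - 1) := by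
          rw [two_smul]
          noncomm_ring
        have h7 : ‖(2 : ℝ) • (b - 1)‖ = 2 * ‖b - 1‖ := by
          rw [norm_smul]; norm_num
        rw [← h7, h6]
        have h8 := norm_sub_le (b * b - 1) ((b - 1) * (b - 1))
        have h9 := norm_mul_le (b - 1) (b - 1)
        linarith
      rw [h3, pow_succ]
      nlinarith [norm_nonneg (b - 1)]
  obtain ⟨j, hj⟩ := pow_unbounded_of_one_lt (1 / ‖a - 1‖) (by norm_num : (1 : ℝ) < 3 / 2)
  have h9 := h1 j
  have h10 := hno (2 ^ j)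
  rw [div_lt_iff₀ h0] at hj
  linarith

/-- the translation is small -/
theorem small_shift {L : Set (Ed d)} {R ε : ℝ} (hLc : IsCompact L) (hne : L.Nonempty)
    (hR : L ⊆ Metric.closedBall 0 R) (hε : 0 ≤ ε) {y : Ed d}
    (h : L ⊆ (fun v => y + (1 + ε) • v) '' L) : ‖y‖ ≤ ε * R := by
  obtain ⟨z, hz, hmax⟩ := hLc.exists_isMaxOn hne
    (f := fun v : Ed d => inner ℝ v (-y)) (by fun_prop)
  obtain ⟨w, hw, hwz⟩ := h hz
  have h1 : inner ℝ w (-y) ≤ inner ℝ z (-y) := hmax hw
  have h2 : inner ℝ z (-y) = inner ℝ y (-y) + (1 + ε) * inner ℝ w (-y) := by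
    rw [← hwz]
    simp only
    rw [inner_add_left, inner_smul_left]
    simp
  have h3 : inner ℝ y (-y) = -(‖y‖ * ‖y‖) := by
    rw [inner_neg_right, real_inner_self_eq_norm_mul_norm]
  have h4 : inner ℝ z (-y) ≤ ‖z‖ * ‖y‖ := by
    have := real_inner_le_norm z (-y)
    rwa [norm_neg] at this
  have h5 : ‖z‖ ≤ R := by
    have := hR hz
    rwa [mem_closedBall_zero_iff] at this
  have h6 : ‖y‖ * ‖y‖ ≤ ε * R * ‖y‖ := by
    have h7 : ‖y‖ * ‖y‖ ≤ ε * inner ℝ z (-y) := by
      nlinarith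
    have h8 : ε * inner ℝ z (-y) ≤ ε * (R * ‖y‖) := by
      apply mul_le_mul_of_nonneg_left _ hε
      exact h4.trans (mul_le_mul_of_nonneg_right h5 (norm_nonneg _))
    linarith
  rcases (norm_nonneg y).eq_or_lt with h7 | h7
  · rw [← h7]
    have hR0 : 0 ≤ R := (norm_nonneg z).trans h5
    positivity
  · exact le_of_mul_le_mul_right h6 h7

/-- a slightly smaller copy is contained in the inner set -/
theorem inner_copy {L L' : Set (Ed d)} {R ε : ℝ} (hv : Convex ℝ L')
    (hb : Metric.closedBall 0 1 ⊆ L) (hR : 0 < R) (hε : 0 < ε) (hεR : ε * R ≤ 1)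
    {y : Ed d} (h : L ⊆ (fun v => y + (1 + ε) • v) '' L') (hy : ‖y‖ ≤ ε * R) {z : Ed d}
    (hz : z ∈ L) : ((1 - ε * R) / (1 + ε)) • z ∈ L' := by
  have hl : 0 < ε * R := by positivity
  have h1ε : (1 + ε) ≠ 0 := by positivity
  have key : ∀ w ∈ L, (1 + ε)⁻¹ • (w - y) ∈ L' := by
    intro w hw
    obtain ⟨v, hv', hvw⟩ := h hw
    have : (1 + ε)⁻¹ • (w - y) = v := by
      rw [← hvw]
      simp only
      rw [add_sub_cancel_left, smul_smul, inv_mul_cancel₀ h1ε, one_smul]
    rw [this]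
    exact hv'
  have h1 := key z hz
  have h2 := key ((ε * R)⁻¹ • y) (hb (by
    rw [mem_closedBall_zero_iff, norm_smul, norm_inv, Real.norm_of_nonneg hl.le,
      inv_mul_le_iff₀ hl, mul_one]
    exact hy))
  have h3 := hv h1 h2 (a := 1 - ε * R) (b := ε * R) (by linarith) hl.le (by ring)
  have h4 : (1 - ε * R) • (1 + ε)⁻¹ • (z - y) + (ε * R) • (1 + ε)⁻¹ • ((ε * R)⁻¹ • y - y) =
      ((1 - ε * R) / (1 + ε)) • z := by
    have h5 : (ε * R) • (1 + ε)⁻¹ • ((ε * R)⁻¹ • y - y) =
        (1 + ε)⁻¹ • (y - (ε * R) • y) := by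
      rw [smul_comm, smul_sub, smul_smul, mul_inv_cancel₀ hl.ne', one_smul]
    rw [h5, div_eq_inv_mul]
    module
  rwa [h4] at h3

theorem bound2 {K : Set (Ed d)} {R : ℝ} (h1 : Metric.closedBall 0 (1 / 2) ⊆ K)
    (h2 : K ⊆ Metric.closedBall 0 R) {A : Al d} (hA : A ∈ Sy K) : ‖A‖ ≤ 5 * R + 1 := by
  have h0 : (0 : Ed d) ∈ K := h1 (Metric.mem_closedBall_self (by norm_num))
  have hR : 0 ≤ R := by
    have := h2 h0
    rw [mem_closedBall_zero_iff, norm_zero] at this
    exact this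
  have hc : ‖(A (0, 1)).1‖ ≤ R := by
    have := h2 (hA.2 0 h0)
    rwa [mem_closedBall_zero_iff] at this
  have hc1 : ‖A (0, 1)‖ ≤ R + 1 := by
    rw [Prod.norm_def, hA.1]
    simp only [norm_one]
    exact max_le (by linarith) (by linarith)
  have hu : ∀ x : Ed d, ‖A (x, 0)‖ ≤ 4 * R * ‖x‖ := by
    intro x
    rcases eq_or_ne x 0 with rfl | hx
    · have : ((0 : Ed d), (0 : ℝ)) = 0 := rfl
      rw [this, map_zero]; simp
    · have hx' : 0 < ‖x‖ := norm_pos_iff.2 hx
      set u : Ed d := (2 * ‖x‖)⁻¹ • x with hu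
      have hu1 : u ∈ Metric.closedBall (0 : Ed d) (1 / 2) := by
        rw [mem_closedBall_zero_iff, hu, norm_smul, norm_inv, norm_mul, norm_norm]
        rw [Real.norm_of_nonneg (by norm_num : (0 : ℝ) ≤ 2)]
        apply le_of_eq
        field_simp
      have h3 : ‖(A (u, 1)).1‖ ≤ R := by
        have := h2 (hA.2 u (h1 hu1))
        rwa [mem_closedBall_zero_iff] at this
      have h4 : A (u, 0) = A (u, 1) - A (0, 1) := by
        rw [← map_sub]
        congr 1
        simp
      have h5 : ‖A (u, 0)‖ ≤ 2 * R := by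
        rw [Prod.norm_def, hA.1]
        simp only [norm_zero]
        refine max_le ?_ (by linarith)
        rw [h4, Prod.fst_sub]
        exact (norm_sub_le _ _).trans (by linarith)
      have h6 : ((x, 0) : Ed d × ℝ) = (2 * ‖x‖) • (u, (0 : ℝ)) := by
        rw [Prod.smul_mk, hu, smul_smul, mul_inv_cancel₀ (by positivity), one_smul, smul_zero]
      rw [h6, map_smul, norm_smul, norm_mul, norm_norm,
        Real.norm_of_nonneg (by norm_num : (0 : ℝ) ≤ 2)]
      have := mul_le_mul_of_nonneg_left h5 (by positivity : 0 ≤ 2 * ‖x‖)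
      linarith
  refine ContinuousLinearMap.opNorm_le_bound _ (by linarith) fun p => ?_
  obtain ⟨x, s⟩ := p
  have h7 : ((x, s) : Ed d × ℝ) = (x, 0) + s • (0, 1) := by simp
  have hx : ‖x‖ ≤ ‖((x, s) : Ed d × ℝ)‖ := norm_fst_le (x, s)
  have hs : ‖s‖ ≤ ‖((x, s) : Ed d × ℝ)‖ := norm_snd_le (x, s)
  calc ‖A (x, s)‖ = ‖A (x, 0) + s • A (0, 1)‖ := by rw [h7, map_add, map_smul]
    _ ≤ ‖A (x, 0)‖ + ‖s • A (0, 1)‖ := norm_add_le _ _
    _ ≤ 4 * R * ‖x‖ + ‖s‖ * (R + 1) := by
        rw [norm_smul]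
        exact add_le_add (hu x) (mul_le_mul_of_nonneg_left hc1 (norm_nonneg _))
    _ ≤ 4 * R * ‖((x, s) : Ed d × ℝ)‖ + ‖((x, s) : Ed d × ℝ)‖ * (R + 1) :=
        add_le_add (mul_le_mul_of_nonneg_left hx (by linarith))
          (mul_le_mul_of_nonneg_right hs (by linarith))
    _ = (5 * R + 1) * ‖((x, s) : Ed d × ℝ)‖ := by ring

/-- the linear part of `aff A` as a continuous linear map -/
noncomputable def lin (A : Al d) : Ed d →L[ℝ] Ed d :=
  (ContinuousLinearMap.fst ℝ (Ed d) ℝ).comp (A.comp (ContinuousLinearMap.inl ℝ (Ed d) ℝ))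

theorem lin_eq (A : Al d) : ((lin A : Ed d →L[ℝ] Ed d) : Ed d →ₗ[ℝ] Ed d) = (aff A).linear := by
  ext1 x
  have h1 : (aff A).linear x = aff A x - aff A 0 := by
    rw [aff_eq (aff A) x]
    abel
  rw [h1, aff_apply, aff_apply]
  change (A (x, 0)).1 = _
  rw [← Prod.fst_sub, ← map_sub]
  simp

theorem lin_cont : Continuous (fun A : Al d => lin A) := by
  unfold lin
  exact (ContinuousLinearMap.compL ℝ (Ed d) (Ed d × ℝ) (Ed d)
    (ContinuousLinearMap.fst ℝ (Ed d) ℝ)).continuous.comp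
    ((ContinuousLinearMap.compL ℝ (Ed d) (Ed d × ℝ) (Ed d × ℝ)).flip
      (ContinuousLinearMap.inl ℝ (Ed d) ℝ)).continuous

theorem det_cont : Continuous (fun A : Al d => LinearMap.det (aff A).linear) := by
  have : (fun A : Al d => LinearMap.det (aff A).linear) =
      fun A => (lin A).det := by
    funext A
    rw [← lin_eq]
  rw [this]
  exact ContinuousLinearMap.continuous_det.comp lin_cont

theorem aff_hat_pow (g : Ed d →ᵃ[ℝ] Ed d) (k : ℕ) :
    LinearMap.det (aff (hat g ^ k)).linear = (LinearMap.det g.linear) ^ k := by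
  have h1 : ∀ x : Ed d, (hat g ^ k) (x, 0) = ((g.linear ^ k) x, 0) := by
    intro x
    induction k with
    | zero => simp
    | succ k ih =>
      rw [pow_succ', pow_succ']
      change hat g ((hat g ^ k) (x, 0)) = _
      rw [ih, hat_apply]
      simp
  have h2 : (aff (hat g ^ k)).linear = g.linear ^ k := by
    rw [← lin_eq]
    ext1 x
    change ((hat g ^ k) (x, 0)).1 = _
    rw [h1]
  rw [h2, map_pow]

/-- **Stability.** If all convex bodies in `ℝ^d` with a nontrivial orientation preserving affine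
symmetry are covered by `N` translates of their interiors, this holds for all bodies close to such
bodies. -/
theorem near {N : ℕ} (h : ∀ L0 : Set (Ed d), Convex ℝ L0 → IsCompact L0 → (interior L0).Nonempty →
      ∀ g : Ed d →ᵃ[ℝ] Ed d, g '' L0 = L0 → 0 < LinearMap.det g.linear → (∃ v, g v ≠ v) →
      Cov N L0) :
    ∃ ε : ℝ, 0 < ε ∧ ∀ K K' : Set (Ed d), Convex ℝ K → IsCompact K → (interior K).Nonempty →
      Convex ℝ K' → IsCompact K' → ∀ x : Ed d, K' ⊆ K → K ⊆ (fun v => x + (1 + ε) • v) '' K' →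
      ∀ g : Ed d →ᵃ[ℝ] Ed d, g '' K' = K' → 0 < LinearMap.det g.linear → (∃ v, g v ≠ v) →
      Cov N K := by
  classical
  by_contra hno
  push Not at hno
  have hno' := fun n : ℕ => hno (1 / ((n : ℝ) + 1)) (by positivity)
  choose K K' hKv hKc hKi hv' hc' x hsub hsup g hg hdet hne hN using hno'
  obtain ⟨R, φ, T, L0, hφ, hT, hL, hLc, hLb, hconv, hLN⟩ :=
    Pool.Agent.H721.C4.cmp d N K fun n => ⟨hKv n, hKc n, hKi n, hN n⟩
  apply hLN
  -- notation
  set L : ℕ → Set (Ed d) := fun n => T n '' K (φ n) with hLdef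
  set L' : ℕ → Set (Ed d) := fun n => T n '' K' (φ n) with hL'def
  set e : ℕ → ℝ := fun n => 1 / ((φ n : ℝ) + 1) with hedef
  have he0 : ∀ n, 0 < e n := fun n => by simp only [hedef]; positivity
  have helim : Tendsto e atTop (𝓝 0) :=
    tendsto_one_div_add_atTop_nhds_zero_nat.comp hφ.tendsto_atTop
  have hLb' : ∀ n, Metric.closedBall 0 1 ⊆ L n := fun n => (hT n).1
  have hLR : ∀ n, L n ⊆ Metric.closedBall 0 R := fun n => (hT n).2
  have hR0 : 0 ≤ R := by
    have := hLR 0 (hLb' 0 (Metric.mem_closedBall_self zero_le_one))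
    rwa [mem_closedBall_zero_iff, norm_zero] at this
  set R' : ℝ := R + 1 with hR'
  have hR'0 : 0 < R' := by linarith
  have hLR' : ∀ n, L n ⊆ Metric.closedBall 0 R' := fun n =>
    (hLR n).trans (Metric.closedBall_subset_closedBall (by linarith))
  have hLcomp : ∀ n, IsCompact (L n) := fun n =>
    (hKc (φ n)).image (T n).toAffineMap.continuous_of_finiteDimensional
  have hL'v : ∀ n, Convex ℝ (L' n) := fun n => (hv' (φ n)).affine_image (T n).toAffineMap
  have hLL : ∀ n, L' n ⊆ L n := fun n => image_mono (hsub (φ n))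
  -- the shifts
  have hy : ∀ n, ∃ y : Ed d, L n ⊆ (fun v => y + (1 + e n) • v) '' L' n := by
    intro n
    refine ⟨(T n).toAffineMap.linear (x (φ n)) - e n • (T n) 0, ?_⟩
    rintro _ ⟨k, hk, rfl⟩
    obtain ⟨k', hk', rfl⟩ := hsup (φ n) hk
    refine ⟨T n k', mem_image_of_mem _ hk', ?_⟩
    have h1 : ∀ v : Ed d, T n v = (T n).toAffineMap.linear v + T n 0 := fun v =>
      aff_eq (T n).toAffineMap v
    simp only
    rw [h1 k', h1 (x (φ n) + (1 + 1 / ((φ n : ℝ) + 1)) • k'), map_add, map_smul]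
    simp only [hedef]
    module
  choose y hy using hy
  have hysmall : ∀ n, ‖y n‖ ≤ e n * R' := fun n =>
    small_shift (hLcomp n) ⟨0, hLb' n (Metric.mem_closedBall_self zero_le_one)⟩ (hLR' n) (he0 n).le
      ((hy n).trans (image_mono (hLL n)))
  have hcopy : ∀ n, e n * R' ≤ 1 → ∀ z ∈ L n, ((1 - e n * R') / (1 + e n)) • z ∈ L' n :=
    fun n hn z hz => inner_copy (hL'v n) (hLb' n) hR'0 (he0 n) hn (hy n) (hysmall n) hz
  have hclim : Tendsto (fun n => (1 - e n * R') / (1 + e n)) atTop (𝓝 1) := by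
    have h1 : Tendsto (fun n => (1 - e n * R') / (1 + e n)) atTop
        (𝓝 ((1 - 0 * R') / (1 + 0))) :=
      (tendsto_const_nhds.sub (helim.mul_const R')).div (tendsto_const_nhds.add helim) (by norm_num)
    simpa using h1
  have hsmall : ∀ᶠ n in atTop, e n * R' ≤ 1 := by
    have h1 : Tendsto (fun n => e n * R') atTop (𝓝 (0 * R')) := helim.mul_const R'
    rw [zero_mul] at h1
    exact (h1.eventually (gt_mem_nhds one_pos)).mono fun n hn => hn.le
  have h0L' : ∀ᶠ n in atTop, (0 : Ed d) ∈ L' n := by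
    filter_upwards [hsmall] with n hn
    have := hcopy n hn 0 (hLb' n (Metric.mem_closedBall_self zero_le_one))
    rwa [smul_zero] at this
  -- a factor of `L n` is in `L' n`
  have hfac : ∀ c : ℝ, 0 < c → c < 1 → ∀ᶠ n in atTop, ∀ z ∈ L n, c • z ∈ L' n := by
    intro c hc0 hc1
    filter_upwards [hsmall, h0L', hclim.eventually (lt_mem_nhds hc1)] with n h1 h2 h3 z hz
    have h4 := hcopy n h1 z hz
    set q := (1 - e n * R') / (1 + e n) with hq
    have hq0 : 0 < q := hc0.trans h3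
    have h5 := (hL'v n) h4 h2 (a := c / q) (b := 1 - c / q) (by positivity)
      (by rw [sub_nonneg, div_le_one hq0]; exact h3.le) (by ring)
    rwa [smul_zero, add_zero, smul_smul, div_mul_cancel₀ _ hq0.ne'] at h5
  have hconv' : Conv L' L0 := by
    intro δ hδ
    obtain ⟨n1, hn1⟩ := hconv (min δ 1 / 3) (by positivity)
    obtain ⟨n0, hn0⟩ := hconv δ hδ
    set c : ℝ := (1 + min δ 1 / 3)⁻¹ with hc
    have hm0 : 0 < min δ 1 := lt_min hδ one_pos
    have hc0 : 0 < c := by positivity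
    have hc1 : c < 1 := inv_lt_one_of_one_lt₀ (by linarith)
    obtain ⟨n2, hn2⟩ := eventually_atTop.1 ((hfac c hc0 hc1).and h0L')
    refine ⟨max n0 (max n1 n2), fun n hn => ⟨(hLL n).trans (hn0 n (le_of_max_le_left hn)).1, ?_⟩⟩
    have hn' := le_of_max_le_right hn
    intro z hz
    obtain ⟨w, hw, hwz⟩ := (hn1 n (le_of_max_le_left hn')).2 hz
    obtain ⟨h6, h7⟩ := hn2 n (le_of_max_le_right hn')
    have h8 := h6 w hw
    -- z = (1 + m/3) w, c w in L'
    have hzc : z = ((1 + min δ 1 / 3) * (1 + min δ 1 / 3)) • (c • w) := by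
      rw [← hwz]
      simp only
      rw [smul_smul]
      congr 1
      rw [hc]
      field_simp
    have hle : (1 + min δ 1 / 3) * (1 + min δ 1 / 3) ≤ 1 + δ := by
      have hm1 : min δ 1 ≤ 1 := min_le_right _ _
      have hm2 : min δ 1 ≤ δ := min_le_left _ _
      nlinarith
    set s := (1 + min δ 1 / 3) * (1 + min δ 1 / 3) with hs
    have hs0 : 0 < s := by positivity
    refine ⟨(s / (1 + δ)) • (c • w), ?_, ?_⟩
    · have h9 := (hL'v n) h8 h7 (a := s / (1 + δ)) (b := 1 - s / (1 + δ)) (by positivity)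
        (by rw [sub_nonneg, div_le_one (by positivity)]; exact hle) (by ring)
      rwa [smul_zero, add_zero] at h9
    · simp only
      rw [hzc, smul_smul (1 + δ)]
      congr 1
      field_simp
  -- the symmetries
  obtain ⟨n3, hn3⟩ := eventually_atTop.1 (hfac (1 / 2) (by norm_num) (by norm_num))
  have hball : ∀ n, n3 ≤ n → Metric.closedBall 0 (1 / 2) ⊆ L' n := by
    intro n hn w hw
    have h1 : (2 : ℝ) • w ∈ L n := hLb' n (by
      rw [mem_closedBall_zero_iff] at hw ⊢
      rw [norm_smul, Real.norm_of_nonneg (by norm_num : (0 : ℝ) ≤ 2)]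
      linarith)
    have h2 := hn3 n hn _ h1
    rwa [smul_smul, show (1 / 2 : ℝ) * 2 = 1 by norm_num, one_smul] at h2
  have hsym : ∀ n, n3 ≤ n → ∃ B B' : Al d, B ∈ Sy (L' n) ∧ B' ∈ Sy (L' n) ∧ B * B' = 1 ∧
      B' * B = 1 ∧ 1 / 2 < ‖B - 1‖ ∧ 0 < LinearMap.det (aff B).linear := by
    intro n hn
    set G : Ed d →ᵃ[ℝ] Ed d :=
      ((T n).toAffineMap.comp (g (φ n))).comp (T n).symm.toAffineMap with hG
    have hGapp : ∀ v, G (T n v) = T n (g (φ n) v) := fun v => by simp [hG]
    have hGL : G '' L' n = L' n := by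
      simp only [hL'def]
      rw [image_image]
      have : (fun v => G (T n v)) = fun v => T n (g (φ n) v) := funext hGapp
      rw [this, ← image_image (T n) (g (φ n)), hg (φ n)]
    have hGdet : 0 < LinearMap.det G.linear := by
      have h1 : G.linear = ((T n).linear : Ed d →ₗ[ℝ] Ed d) ∘ₗ (g (φ n)).linear ∘ₗ
          ((T n).linear.symm : Ed d →ₗ[ℝ] Ed d) := rfl
      rw [h1, LinearMap.det_conj]
      exact hdet (φ n)
    have hGne : G ≠ AffineMap.id ℝ (Ed d) := by
      intro h1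
      obtain ⟨v, hv⟩ := hne (φ n)
      apply hv
      apply (T n).injective
      rw [← hGapp, h1]
      rfl
    have hGbij : Function.Bijective G := by
      rw [← G.linear_bijective_iff]
      have : Function.Injective G.linear := by
        rw [← LinearMap.ker_eq_bot]
        by_contra hk
        exact hGdet.ne' (LinearMap.det_eq_zero_iff_ker_ne_bot.2 hk)
      exact ⟨this, LinearMap.injective_iff_surjective.1 this⟩
    let G' : Ed d ≃ᵃ[ℝ] Ed d := AffineEquiv.ofBijective hGbij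
    have hG1 : ∀ v, G'.symm (G v) = v := fun v => G'.symm_apply_apply v
    have hG2 : ∀ v, G (G'.symm v) = v := fun v => G'.apply_symm_apply v
    have hGL' : G'.symm.toAffineMap '' L' n = L' n := by
      conv_lhs => rw [← hGL]
      rw [image_image]
      have : (fun v => G'.symm.toAffineMap (G v)) = id := funext hG1
      rw [this, image_id]
    obtain ⟨k, hk⟩ := doubling (hat G) (fun h1 => hGne (hat_inj (by rw [h1, hat_id])))
    have hm1 : hat G * hat G'.symm.toAffineMap = 1 := by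
      rw [hat_mul, ← hat_id]
      congr 1
      ext1 v
      exact hG2 v
    have hm2 : hat G'.symm.toAffineMap * hat G = 1 := by
      rw [hat_mul, ← hat_id]
      congr 1
      ext1 v
      exact hG1 v
    have hcomm : Commute (hat G) (hat G'.symm.toAffineMap) := by
      rw [commute_iff_eq, hm1, hm2]
    refine ⟨hat G ^ k, hat G'.symm.toAffineMap ^ k, pow_Sy (hat_Sy hGL) k, pow_Sy (hat_Sy hGL') k,
      ?_, ?_, hk, ?_⟩
    · rw [← hcomm.mul_pow, hm1, one_pow]
    · rw [← hcomm.symm.mul_pow, hm2, one_pow]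
    · rw [aff_hat_pow]
      exact pow_pos hGdet k
  have hsym' : ∀ n : ℕ, ∃ B B' : Al d, B ∈ Sy (L' (n3 + n)) ∧ B' ∈ Sy (L' (n3 + n)) ∧ B * B' = 1 ∧
      B' * B = 1 ∧ 1 / 2 < ‖B - 1‖ ∧ 0 < LinearMap.det (aff B).linear := fun n =>
    hsym (n3 + n) (by omega)
  choose B B' hB hB' hBB hBB' hBne hBdet using hsym'
  have hbd : ∀ n, ∀ A ∈ Sy (L' (n3 + n)), ‖A‖ ≤ 5 * R + 1 := fun n A hA =>
    bound2 (hball _ (by omega)) ((hLL _).trans (hLR _)) hA
  have : ProperSpace (Al d) := FiniteDimensional.proper_real _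
  obtain ⟨⟨B0, B0'⟩, -, ψ, hψ, hlim⟩ := ((isCompact_closedBall (0 : Al d) (5 * R + 1)).prod
    (isCompact_closedBall (0 : Al d) (5 * R + 1))).tendsto_subseq
    (x := fun n => (B n, B' n)) fun n => ⟨by
      rw [mem_closedBall_zero_iff]; exact hbd n _ (hB n), by
      rw [mem_closedBall_zero_iff]; exact hbd n _ (hB' n)⟩
  have hl1 : Tendsto (fun n => B (ψ n)) atTop (𝓝 B0) :=
    (continuous_fst.tendsto _).comp hlim
  have hl2 : Tendsto (fun n => B' (ψ n)) atTop (𝓝 B0') :=
    (continuous_snd.tendsto _).comp hlim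
  have hidx : Tendsto (fun n => n3 + ψ n) atTop atTop :=
    tendsto_atTop_mono (fun n => Nat.le_add_left _ _) hψ.tendsto_atTop
  have hS1 : B0 ∈ Sy L0 := lim_Sy hLc hconv' hidx (fun n => hB (ψ n)) hl1
  have hS2 : B0' ∈ Sy L0 := lim_Sy hLc hconv' hidx (fun n => hB' (ψ n)) hl2
  have hm : B0 * B0' = 1 := by
    refine tendsto_nhds_unique (hl1.mul hl2) ?_
    refine tendsto_const_nhds.congr fun n => (hBB (ψ n)).symm
  have hB0ne : B0 ≠ 1 := by
    intro h1
    have h2 : Tendsto (fun n => ‖B (ψ n) - 1‖) atTop (𝓝 ‖B0 - 1‖) :=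
      (hl1.sub_const 1).norm
    have h3 : (1 / 2 : ℝ) ≤ ‖B0 - 1‖ := ge_of_tendsto' h2 fun n => (hBne (ψ n)).le
    rw [h1, sub_self, norm_zero] at h3
    norm_num at h3
  have hint : (interior L0).Nonempty := ⟨0, interior_mono hLb (by
    rw [interior_closedBall _ one_ne_zero]; exact Metric.mem_ball_self one_pos)⟩
  have hmem : (aff B0) '' L0 = L0 := by
    apply Subset.antisymm
    · rintro _ ⟨v, hv, rfl⟩
      rw [aff_apply]
      exact hS1.2 v hv
    · intro v hv
      refine ⟨(B0' (v, 1)).1, hS2.2 v hv, ?_⟩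
      rw [aff_apply, ← app_one hS2.1]
      have h6 : B0 (B0' (v, 1)) = (v, (1 : ℝ)) := by
        have := congrArg (fun A : Al d => A (v, 1)) hm
        simpa using this
      rw [h6]
  refine h L0 hL hLc hint (aff B0) hmem ?_ ?_
  · have h1 : Tendsto (fun n => LinearMap.det (aff (B (ψ n))).linear) atTop
        (𝓝 (LinearMap.det (aff B0).linear)) := (det_cont.tendsto B0).comp hl1
    have h2 : 0 ≤ LinearMap.det (aff B0).linear := ge_of_tendsto' h1 fun n => (hBdet (ψ n)).le
    exact lt_of_le_of_ne h2 (Ne.symm (Pool.Agent.W867.Cov3.det_ne_zero hint (aff B0) hmem))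
  · by_contra hcon
    push Not at hcon
    apply hB0ne
    refine aff_inj hS1.1 (fun p => rfl) ?_
    ext1 v
    rw [hcon v, aff_apply]
    rfl

end Pool.Agent.H283.NS
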